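import Mathlib

/-!
Integral simplicial chains of an abstract complex on `Fin n`, as functions on finite sets, and
the vanishing of integral (reduced) homology.
-/

namespace Pool.Agent.Work.MP_d1e9a6_pr.Top

/-- The number of elements of `t` below `v`. -/
def rk {n : ℕ} (v : Fin n) (t : Finset (Fin n)) : ℕ := (t.filter (· < v)).card

/-- The boundary of an integral chain (a function on finite sets):
`(bd c)(t) = sum over v not in t of (-1)^(number of u in t with u < v) * c (insert v t)`. -/
def bd {n : ℕ} (c : Finset (Fin n) → ℤ) (t : Finset (Fin n)) : ℤ :=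
  ∑ v ∈ Finset.univ.filter (fun v => v ∉ t), (-1) ^ rk v t * c (insert v t)

/-- `c` is a chain of dimension `j` (faces with `j + 1` vertices) of `K`. -/
def IsChain {n : ℕ} (K : Set (Finset (Fin n))) (j : ℕ) (c : Finset (Fin n) → ℤ) : Prop :=
  ∀ s, c s ≠ 0 → s ∈ K ∧ s.card = j + 1

/-- The reduced integral homology of `K` in dimension `j` vanishes (for `j = 0` the condition at
the empty set is the augmentation). -/
def HV {n : ℕ} (K : Set (Finset (Fin n))) (j : ℕ) : Prop :=
  ∀ c, IsChain K j c → (∀ t, bd c t = 0) → ∃ b, IsChain K (j + 1) b ∧ ∀ t, bd b t = c t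

end Pool.Agent.Work.MP_d1e9a6_pr.Top
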