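import Mathlib
import Pool.Agent.Work.MP_d1e9a6_pr_h36.Defs
import Pool.Agent.Work.MP_d1e9a6_pr_helper73.HV

/-!
From vanishing integral homology (finset chains) to the cohomology hypotheses of the topology
block (block P2).
-/

noncomputable section

open Finset

namespace Pool.Agent.Work.MP_d1e9a6_pr.Top

/-! ### linear algebra over the integers -/

/-- A linear map to a finite free module over the integers has a projection onto its kernel. -/
theorem exists_proj {M : Type*} [AddCommGroup M] {P : Type*} [AddCommGroup P]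
    [Module.Free ℤ P] [Module.Finite ℤ P] (d : M →ₗ[ℤ] P) :
    ∃ π : M →ₗ[ℤ] (LinearMap.ker d), ∀ x : LinearMap.ker d, π x = x := by
  have hfree : Module.Free ℤ (LinearMap.range d) := inferInstance
  have hproj : Module.Projective ℤ (LinearMap.range d) := inferInstance
  obtain ⟨s, hs⟩ := Module.projective_lifting_property d.rangeRestrict LinearMap.id
    (LinearMap.surjective_rangeRestrict d)
  refine ⟨LinearMap.codRestrict (LinearMap.ker d) (LinearMap.id - s.comp d.rangeRestrict) ?_, ?_⟩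
  · intro x
    have h1 : d (s (d.rangeRestrict x)) = d x := by
      have := LinearMap.congr_fun hs (d.rangeRestrict x)
      have h2 := congrArg Subtype.val this
      simpa using h2
    simp [h1]
  · intro x
    have hx : d.rangeRestrict (x : M) = 0 := by
      apply Subtype.ext
      simp
    apply Subtype.ext
    simp [hx]

/-- The splitting operator: `d D d = d`. -/
theorem exists_split {M N P : Type*} [AddCommGroup M] [AddCommGroup N] [AddCommGroup P]
    [Module.Free ℤ N] [Module.Finite ℤ N] [Module.Free ℤ P] [Module.Finite ℤ P]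
    (d : M →ₗ[ℤ] N) (d' : N →ₗ[ℤ] P)
    (hex : ∀ y, d' y = 0 → ∃ x, d x = y) (hdd : ∀ x, d' (d x) = 0) :
    ∃ D : N →ₗ[ℤ] M, ∀ x, d (D (d x)) = d x := by
  obtain ⟨π, hπ⟩ := exists_proj d'
  let d0 : M →ₗ[ℤ] LinearMap.ker d' := LinearMap.codRestrict _ d (fun x => by simpa using hdd x)
  have hsurj : Function.Surjective d0 := by
    rintro ⟨y, hy⟩
    obtain ⟨x, hx⟩ := hex y (by simpa using hy)
    exact ⟨x, Subtype.ext hx⟩
  have : Module.Free ℤ (LinearMap.ker d') := inferInstance
  obtain ⟨s, hs⟩ := Module.projective_lifting_property d0 LinearMap.id hsurj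
  refine ⟨s.comp π, fun x => ?_⟩
  have h1 : π (d x) = d0 x := hπ (d0 x)
  have h2 : d0 (s (d0 x)) = d0 x := LinearMap.congr_fun hs (d0 x)
  have h3 : d (s (d0 x)) = d x := congrArg Subtype.val h2
  simpa [h1] using h3

/-! ### ordered simplices and finite sets -/

variable {n : ℕ}

/-- The vertex set of an ordered simplex. -/
def vert {K : Set (Finset (Fin n))} {j : ℕ} (τ : Simp K j) : Finset (Fin n) :=
  Finset.univ.map τ.1.toEmbedding

theorem vert_mem {K : Set (Finset (Fin n))} {j : ℕ} (τ : Simp K j) : vert τ ∈ K := τ.2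

theorem vert_card {K : Set (Finset (Fin n))} {j : ℕ} (τ : Simp K j) : (vert τ).card = j + 1 := by
  simp [vert]

/-- The ordered simplex of a face. -/
def ofSet {K : Set (Finset (Fin n))} {j : ℕ} (s : Finset (Fin n)) (hs : s ∈ K)
    (hc : s.card = j + 1) : Simp K j :=
  ⟨s.orderEmbOfFin hc, by
    have : Finset.univ.map (s.orderEmbOfFin hc).toEmbedding = s := by
      ext v
      simp only [Finset.mem_map, Finset.mem_univ, true_and, RelEmbedding.coe_toEmbedding]
      rw [← Set.mem_range (f := s.orderEmbOfFin hc), Finset.range_orderEmbOfFin]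
      simp
    rw [this]
    exact hs⟩

theorem vert_ofSet {K : Set (Finset (Fin n))} {j : ℕ} (s : Finset (Fin n)) (hs : s ∈ K)
    (hc : s.card = j + 1) : vert (ofSet s hs hc) = s := by
  unfold vert ofSet
  ext v
  simp only [Finset.mem_map, Finset.mem_univ, true_and, RelEmbedding.coe_toEmbedding]
  rw [← Set.mem_range (f := s.orderEmbOfFin hc), Finset.range_orderEmbOfFin]
  simp

theorem vert_injective {K : Set (Finset (Fin n))} {j : ℕ} :
    Function.Injective (vert : Simp K j → Finset (Fin n)) := by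
  intro τ σ h
  apply Subtype.ext
  have h1 : ∀ x, τ.1 x ∈ vert τ := fun x => by simp [vert]
  have h2 : ∀ x, σ.1 x ∈ vert τ := fun x => by rw [h]; simp [vert]
  have e1 := Finset.orderEmbOfFin_unique' (vert_card τ) (f := τ.1) h1
  have e2 := Finset.orderEmbOfFin_unique' (vert_card τ) (f := σ.1) h2
  rw [e1, e2]

theorem mem_vert {K : Set (Finset (Fin n))} {j : ℕ} (τ : Simp K j) (v : Fin n) :
    v ∈ vert τ ↔ ∃ i, τ.1 i = v := by
  simp [vert]

theorem vert_face {K : Set (Finset (Fin n))} (hK : IsCpx K) {j : ℕ} (τ : Simp K (j + 1))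
    (i : Fin (j + 2)) : vert (τ.face hK i) = (vert τ).erase (τ.1 i) := by
  ext v
  rw [mem_vert, Finset.mem_erase, mem_vert]
  constructor
  · rintro ⟨a, rfl⟩
    refine ⟨?_, ⟨i.succAbove a, rfl⟩⟩
    intro h
    exact Fin.succAbove_ne i a (τ.1.injective h)
  · rintro ⟨hne, b, rfl⟩
    have hb : b ≠ i := fun h => hne (by rw [h])
    obtain ⟨a, ha⟩ := Fin.exists_succAbove_eq hb
    exact ⟨a, by rw [← ha]; rfl⟩

theorem rk_vert {K : Set (Finset (Fin n))} {j : ℕ} (τ : Simp K j) (i : Fin (j + 1)) :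
    rk (τ.1 i) (vert τ) = (i : ℕ) := by
  unfold rk
  have : (vert τ).filter (· < τ.1 i) = (Finset.univ.filter (· < i)).map τ.1.toEmbedding := by
    ext v
    simp only [Finset.mem_filter, mem_vert, Finset.mem_map, Finset.mem_univ, true_and,
      RelEmbedding.coe_toEmbedding]
    constructor
    · rintro ⟨⟨a, rfl⟩, h⟩
      exact ⟨a, by simpa using h, rfl⟩
    · rintro ⟨a, h, rfl⟩
      exact ⟨⟨a, rfl⟩, by simpa using h⟩
  have h2 : (Finset.univ.filter (· < i)) = Finset.Iio i := by
    ext a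
    simp
  rw [this, Finset.card_map, h2, Fin.card_Iio]

theorem rk_erase (v : Fin n) (s : Finset (Fin n)) : rk v (s.erase v) = rk v s := by
  unfold rk
  congr 1
  ext u
  simp only [Finset.mem_filter, Finset.mem_erase]
  constructor
  · rintro ⟨⟨_, h⟩, h2⟩
    exact ⟨h, h2⟩
  · rintro ⟨h, h2⟩
    exact ⟨⟨ne_of_lt h2, h⟩, h2⟩

theorem rk_insert_self (v : Fin n) (t : Finset (Fin n)) : rk v (insert v t) = rk v t := by
  unfold rk
  congr 1
  ext u
  simp only [Finset.mem_filter, Finset.mem_insert]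
  constructor
  · rintro ⟨h | h, h2⟩
    · exact absurd h2 (by rw [h]; exact lt_irrefl _)
    · exact ⟨h, h2⟩
  · rintro ⟨h, h2⟩
    exact ⟨Or.inr h, h2⟩

/-- the coboundary in terms of vertex sets -/
theorem sum_face {K : Set (Finset (Fin n))} (hK : IsCpx K) {j : ℕ} (τ : Simp K (j + 1))
    {A : Type*} [AddCommGroup A] (c : Finset (Fin n) → A) :
    ∑ i : Fin (j + 2), ((-1 : ℤ) ^ (i : ℕ)) • c (vert (τ.face hK i)) =
      ∑ v ∈ vert τ, ((-1 : ℤ) ^ rk v (vert τ)) • c ((vert τ).erase v) := by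
  conv_rhs => rw [vert, Finset.sum_map]
  apply Finset.sum_congr rfl
  intro i _
  rw [vert_face]
  have := rk_vert τ i
  change _ = ((-1 : ℤ) ^ rk (τ.1 i) (vert τ)) • c ((vert τ).erase (τ.1 i))
  rw [this]

/-- sums over ordered simplices are sums over faces -/
theorem sum_simp {K : Set (Finset (Fin n))} {j : ℕ} {A : Type*} [AddCommMonoid A]
    (F : Finset (Fin n) → A) (hF : ∀ s, F s ≠ 0 → s ∈ K ∧ s.card = j + 1) :
    ∑ τ : Simp K j, F (vert τ) = ∑ s : Finset (Fin n), F s := by
  classical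
  have h0 : ∑ τ : Simp K j, F (vert τ) =
      ∑ s ∈ Finset.univ.map ⟨vert (K := K) (j := j), vert_injective⟩, F s :=
    (Finset.sum_map Finset.univ ⟨vert, vert_injective⟩ F).symm
  rw [h0]
  apply Finset.sum_subset (Finset.subset_univ _)
  intro s _ hs
  by_contra hne
  obtain ⟨h1, h2⟩ := hF s hne
  exact hs (by
    simp only [Finset.mem_map, Finset.mem_univ, true_and, Function.Embedding.coeFn_mk]
    exact ⟨ofSet s h1 h2, vert_ofSet s h1 h2⟩)

/-- the pairing formula on finite sets -/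
theorem pairing {A : Type*} [AddCommGroup A] (z : Finset (Fin n) → ℤ) (c : Finset (Fin n) → A) :
    ∑ s : Finset (Fin n), z s • ∑ v ∈ s, ((-1 : ℤ) ^ rk v s) • c (s.erase v) =
      ∑ t : Finset (Fin n), bd z t • c t := by
  have h1 : ∑ s : Finset (Fin n), z s • ∑ v ∈ s, ((-1 : ℤ) ^ rk v s) • c (s.erase v) =
      ∑ x ∈ (Finset.univ : Finset (Finset (Fin n))).sigma (fun s => s),
        (z x.1 * (-1 : ℤ) ^ rk x.2 x.1) • c (x.1.erase x.2) := by
    rw [Finset.sum_sigma]
    apply Finset.sum_congr rfl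
    intro s _
    rw [Finset.smul_sum]
    apply Finset.sum_congr rfl
    intro v _
    rw [smul_smul]
  have h2 : ∑ t : Finset (Fin n), bd z t • c t =
      ∑ x ∈ (Finset.univ : Finset (Finset (Fin n))).sigma
        (fun t => Finset.univ.filter (fun v => v ∉ t)),
        ((-1 : ℤ) ^ rk x.2 x.1 * z (insert x.2 x.1)) • c x.1 := by
    rw [Finset.sum_sigma]
    apply Finset.sum_congr rfl
    intro t _
    unfold bd
    rw [Finset.sum_smul]
  rw [h1, h2]
  refine Finset.sum_bij' (fun x _ => ⟨x.1.erase x.2, x.2⟩) (fun x _ => ⟨insert x.2 x.1, x.2⟩)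
    ?_ ?_ ?_ ?_ ?_
  · rintro ⟨s, v⟩ h
    simp
  · rintro ⟨t, v⟩ h
    simp
  · rintro ⟨s, v⟩ h
    simp only [Finset.mem_sigma, Finset.mem_univ, true_and] at h
    simp [Finset.insert_erase h]
  · rintro ⟨t, v⟩ h
    simp only [Finset.mem_sigma, Finset.mem_univ, true_and, Finset.mem_filter] at h
    simp [Finset.erase_insert h]
  · rintro ⟨s, v⟩ h
    simp only [Finset.mem_sigma, Finset.mem_univ, true_and] at h
    simp only
    rw [Finset.insert_erase h, rk_erase, mul_comm]

/-- `bd` squares to zero -/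
theorem bd_bd (c : Finset (Fin n) → ℤ) (t : Finset (Fin n)) : bd (bd c) t = 0 := by
  classical
  have h1 : bd (bd c) t = ∑ v : Fin n, ∑ w : Fin n,
      if v ∉ t ∧ w ∉ t ∧ v ≠ w then
        (-1 : ℤ) ^ (rk v t + rk w (insert v t)) * c (insert w (insert v t)) else 0 := by
    unfold bd
    rw [Finset.sum_filter]
    apply Finset.sum_congr rfl
    intro v _
    by_cases hv : v ∈ t
    · simp [hv]
    · rw [if_pos hv, Finset.sum_filter, Finset.mul_sum]
      apply Finset.sum_congr rfl
      intro w _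
      by_cases hw : w ∈ insert v t
      · rw [if_neg (not_not.mpr hw), mul_zero, if_neg]
        rintro ⟨_, h2, h3⟩
        rcases Finset.mem_insert.mp hw with h | h
        · exact h3 h.symm
        · exact h2 h
      · rw [if_pos hw, if_pos, pow_add, mul_assoc]
        rw [Finset.mem_insert, not_or] at hw
        exact ⟨hv, hw.2, fun h => hw.1 h.symm⟩
  have h2 : bd (bd c) t = - bd (bd c) t := by
    rw [h1]
    conv_rhs => rw [Finset.sum_comm]
    rw [← Finset.sum_neg_distrib]
    apply Finset.sum_congr rfl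
    intro v _
    rw [← Finset.sum_neg_distrib]
    apply Finset.sum_congr rfl
    intro w _
    by_cases h : v ∉ t ∧ w ∉ t ∧ v ≠ w
    · rw [if_pos h, if_pos ⟨h.2.1, h.1, h.2.2.symm⟩, Finset.insert_comm w v]
      have key : ∀ a b : Fin n, a ∉ t → b ∉ t → a < b →
          rk b (insert a t) = rk b t + 1 ∧ rk a (insert b t) = rk a t := by
        intro a b ha hb hab
        unfold rk
        constructor
        · rw [Finset.filter_insert, if_pos hab, Finset.card_insert_of_notMem]
          simp [ha]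
        · rw [Finset.filter_insert, if_neg (not_lt.mpr hab.le)]
      rcases lt_or_gt_of_ne h.2.2 with hlt | hlt
      · obtain ⟨e1, e2⟩ := key v w h.1 h.2.1 hlt
        rw [e1, e2, show rk v t + (rk w t + 1) = (rk w t + rk v t) + 1 by ring, pow_succ]
        ring
      · obtain ⟨e1, e2⟩ := key w v h.2.1 h.1 hlt
        rw [e1, e2, show rk w t + (rk v t + 1) = (rk v t + rk w t) + 1 by ring, pow_succ]
        ring
    · rw [if_neg h, if_neg, neg_zero]
      rintro ⟨a, b, c'⟩
      exact h ⟨b, a, c'.symm⟩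
  omega

/-! ### the simplicial chain complex on ordered simplices -/

/-- the boundary operator on ordered chains -/
def dS {K : Set (Finset (Fin n))} (hK : IsCpx K) (j : ℕ) :
    (Simp K (j + 1) → ℤ) →ₗ[ℤ] (Simp K j → ℤ) where
  toFun z ρ := by
    classical
    exact ∑ τ, z τ * ∑ i : Fin (j + 2), ((-1 : ℤ) ^ (i : ℕ)) * if τ.face hK i = ρ then 1 else 0
  map_add' z w := by
    funext ρ
    simp only [Pi.add_apply, add_mul, Finset.sum_add_distrib]
  map_smul' a z := by
    funext ρ
    simp only [Pi.smul_apply, smul_eq_mul, mul_assoc, Finset.mul_sum, RingHom.id_apply]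

theorem dS_pair {K : Set (Finset (Fin n))} (hK : IsCpx K) {j : ℕ} (z : Simp K (j + 1) → ℤ)
    {A : Type*} [AddCommGroup A] (c : Simp K j → A) :
    ∑ τ, z τ • (∑ i : Fin (j + 2), ((-1 : ℤ) ^ (i : ℕ)) • c (τ.face hK i)) =
      ∑ ρ, dS hK j z ρ • c ρ := by
  classical
  have h1 : ∀ ρ, dS hK j z ρ • c ρ = ∑ τ, z τ • ∑ i : Fin (j + 2), ((-1 : ℤ) ^ (i : ℕ)) •
      (if τ.face hK i = ρ then c ρ else 0) := by
    intro ρ
    have : dS hK j z ρ = ∑ τ, z τ * ∑ i : Fin (j + 2), ((-1 : ℤ) ^ (i : ℕ)) *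
      if τ.face hK i = ρ then 1 else 0 := by
      unfold dS
      simp only [LinearMap.coe_mk, AddHom.coe_mk]
    rw [this, Finset.sum_smul]
    apply Finset.sum_congr rfl
    intro τ _
    rw [mul_smul, Finset.sum_smul]
    congr 1
    apply Finset.sum_congr rfl
    intro i _
    rw [mul_smul]
    congr 1
    by_cases h : τ.face hK i = ρ
    · rw [if_pos h, if_pos h, one_smul]
    · rw [if_neg h, if_neg h, zero_smul]
  rw [Finset.sum_congr rfl (fun ρ _ => h1 ρ), Finset.sum_comm]
  apply Finset.sum_congr rfl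
  intro τ _
  rw [← Finset.smul_sum]
  congr 1
  rw [Finset.sum_comm]
  apply Finset.sum_congr rfl
  intro i _
  rw [← Finset.smul_sum]
  congr 1
  rw [Finset.sum_ite_eq]
  simp

/-- the boundary of a finset chain, tested on an ordered simplex -/
theorem dS_vert {K : Set (Finset (Fin n))} (hK : IsCpx K) {j : ℕ} (b : Finset (Fin n) → ℤ)
    (hb : IsChain K (j + 1) b) (ρ : Simp K j) :
    dS hK j (fun τ => b (vert τ)) ρ = bd b (vert ρ) := by
  classical
  let c : Finset (Fin n) → ℤ := fun t => if t = vert ρ then 1 else 0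
  have h1 := dS_pair hK (fun τ => b (vert τ)) (fun σ : Simp K j => c (vert σ))
  have h2 : ∑ σ : Simp K j, dS hK j (fun τ => b (vert τ)) σ • c (vert σ) =
      dS hK j (fun τ => b (vert τ)) ρ := by
    rw [Finset.sum_eq_single ρ]
    · simp [c]
    · intro σ _ hne
      have : vert σ ≠ vert ρ := fun h => hne (vert_injective h)
      simp [c, this]
    · simp
  have h3 : ∑ τ : Simp K (j + 1), b (vert τ) •
      (∑ i : Fin (j + 2), ((-1 : ℤ) ^ (i : ℕ)) • c (vert (τ.face hK i))) =
      ∑ s : Finset (Fin n), b s • ∑ v ∈ s, ((-1 : ℤ) ^ rk v s) • c (s.erase v) := by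
    rw [← sum_simp (K := K) (j := j + 1)
      (fun s => b s • ∑ v ∈ s, ((-1 : ℤ) ^ rk v s) • c (s.erase v))]
    · apply Finset.sum_congr rfl
      intro τ _
      rw [sum_face]
    · intro s hs
      apply hb
      intro h
      apply hs
      rw [h, zero_smul]
  rw [pairing] at h3
  have h4 : ∑ t : Finset (Fin n), bd b t • c t = bd b (vert ρ) := by
    simp [c]
  rw [← h2, ← h1, h3, h4]

/-- the finset chain of an ordered chain -/
def ext0 {K : Set (Finset (Fin n))} {j : ℕ} (z : Simp K j → ℤ) (s : Finset (Fin n)) : ℤ := by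
  classical
  exact if h : s ∈ K ∧ s.card = j + 1 then z (ofSet s h.1 h.2) else 0

theorem ext0_vert {K : Set (Finset (Fin n))} {j : ℕ} (z : Simp K j → ℤ) (τ : Simp K j) :
    ext0 z (vert τ) = z τ := by
  unfold ext0
  rw [dif_pos ⟨vert_mem τ, vert_card τ⟩]
  congr 1
  exact vert_injective (vert_ofSet _ _ _)

theorem ext0_chain {K : Set (Finset (Fin n))} {j : ℕ} (z : Simp K j → ℤ) :
    IsChain K j (ext0 z) := by
  intro s hs
  unfold ext0 at hs
  by_contra h
  rw [dif_neg h] at hs
  exact hs rfl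

theorem bd_ext0 {K : Set (Finset (Fin n))} (hK : IsCpx K) {j : ℕ} (z : Simp K (j + 1) → ℤ) :
    bd (ext0 z) = ext0 (dS hK j z) := by
  funext t
  by_cases h : t ∈ K ∧ t.card = j + 1
  · have ht : vert (ofSet (K := K) (j := j) t h.1 h.2) = t := vert_ofSet t h.1 h.2
    rw [← ht, ext0_vert, ← dS_vert hK (ext0 z) (ext0_chain z)]
    have he : (fun τ : Simp K (j + 1) => ext0 z (vert τ)) = z := by
      funext τ
      exact ext0_vert z τ
    rw [he]
  · have h1 : ext0 (dS hK j z) t = 0 := by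
      unfold ext0
      rw [dif_neg h]
    rw [h1]
    unfold bd
    apply Finset.sum_eq_zero
    intro v hv
    simp only [Finset.mem_filter, Finset.mem_univ, true_and] at hv
    by_contra hne
    have hne2 : ext0 z (insert v t) ≠ 0 := fun h0 => hne (by rw [h0, mul_zero])
    obtain ⟨a, b⟩ := ext0_chain z _ hne2
    rw [Finset.card_insert_of_notMem hv] at b
    apply h
    refine ⟨hK.down _ a _ (Finset.subset_insert _ _) ?_, by omega⟩
    rw [← Finset.card_pos]
    omega

theorem dS_dS {K : Set (Finset (Fin n))} (hK : IsCpx K) {j : ℕ} (z : Simp K (j + 2) → ℤ) :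
    dS hK j (dS hK (j + 1) z) = 0 := by
  funext ρ
  have h := bd_bd (ext0 z) (vert ρ)
  rw [bd_ext0 hK z, bd_ext0 hK, ext0_vert] at h
  exact h

theorem dS_exact {K : Set (Finset (Fin n))} (hK : IsCpx K) {j : ℕ} (hH : HV K (j + 1))
    (y : Simp K (j + 1) → ℤ) (hy : dS hK j y = 0) : ∃ x, dS hK (j + 1) x = y := by
  obtain ⟨b, hb, hb2⟩ := hH (ext0 y) (ext0_chain y) (by
    intro t
    rw [bd_ext0 hK y, hy]
    unfold ext0
    split_ifs <;> rfl)
  refine ⟨fun τ => b (vert τ), ?_⟩
  funext ρ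
  rw [dS_vert hK b hb, hb2, ext0_vert]

theorem isCyc_iff {K : Set (Finset (Fin n))} (hK : IsCpx K) {j : ℕ} (z : Simp K (j + 1) → ℤ) :
    IsCyc hK z ↔ dS hK j z = 0 := by
  classical
  constructor
  · intro h
    funext ρ
    have h1 := h ℤ (fun σ => if σ = ρ then 1 else 0)
    have h2 := dS_pair hK z (fun σ : Simp K j => (if σ = ρ then (1 : ℤ) else 0))
    have h3 := h2.symm.trans h1
    simpa using h3
  · intro h A _ c
    rw [dS_pair, h]
    simp

/-! ### the three statements -/

theorem cohTop_of_HV {K : Set (Finset (Fin n))} (hK : IsCpx K) {j : ℕ} (hH : HV K (j + 1)) :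
    CohTop hK (j + 1) := by
  classical
  intro A _ γ hγ
  obtain ⟨D, hD⟩ := exists_split (dS hK (j + 1)) (dS hK j) (dS_exact hK hH)
    (fun x => dS_dS hK x)
  refine ⟨fun t => ∑ s, D (Pi.single t 1) s • γ s, ?_⟩
  intro τ
  have hcyc : IsCyc hK (Pi.single τ (1 : ℤ) - D (dS hK (j + 1) (Pi.single τ 1))) := by
    rw [isCyc_iff, map_sub, hD, sub_self]
  have h1 := hγ _ hcyc
  have h2 : ∑ s, (Pi.single τ (1 : ℤ) : Simp K (j + 2) → ℤ) s • γ s = γ τ := by
    rw [Finset.sum_eq_single τ]
    · simp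
    · intro b _ hb
      simp [Pi.single_eq_of_ne hb]
    · simp
  have h3 : ∀ y : Simp K (j + 1) → ℤ,
      ∑ s, D y s • γ s = ∑ t, y t • ∑ s, D (Pi.single t 1) s • γ s := by
    intro y
    have hy : y = ∑ t, y t • (Pi.single t (1 : ℤ) : Simp K (j + 1) → ℤ) := by
      funext u
      simp [Finset.sum_apply, Pi.single_apply]
    conv_lhs => rw [hy]
    simp only [map_sum, map_smul, Finset.sum_apply, Pi.smul_apply, Finset.sum_smul]
    rw [Finset.sum_comm]
    apply Finset.sum_congr rfl
    intro t _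
    rw [Finset.smul_sum]
    apply Finset.sum_congr rfl
    intro s _
    rw [smul_assoc]
  have h4 : ∑ s, (Pi.single τ (1 : ℤ) - D (dS hK (j + 1) (Pi.single τ 1)) :
      Simp K (j + 2) → ℤ) s • γ s =
      γ τ - ∑ t, dS hK (j + 1) (Pi.single τ 1) t • ∑ s, D (Pi.single t 1) s • γ s := by
    rw [← h3, ← h2]
    rw [← Finset.sum_sub_distrib]
    apply Finset.sum_congr rfl
    intro s _
    rw [Pi.sub_apply, sub_smul]
  rw [h4, ← dS_pair] at h1
  rw [sub_eq_zero] at h1
  rw [h1, Finset.sum_eq_single τ]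
  · simp
  · intro b _ hb
    simp [Pi.single_eq_of_ne hb]
  · simp

theorem coh_of_HV {K : Set (Finset (Fin n))} (hK : IsCpx K) {j : ℕ} (hH : HV K (j + 1))
    (hH' : HV K (j + 2)) : Coh hK (j + 1) := by
  intro A _ γ hγ
  apply cohTop_of_HV hK hH A γ
  intro z hz
  obtain ⟨x, hx⟩ := dS_exact hK hH' z ((isCyc_iff hK z).mp hz)
  rw [← hx, ← dS_pair]
  apply Finset.sum_eq_zero
  intro ρ _
  rw [hγ ρ, smul_zero]

theorem cycBasis {K : Set (Finset (Fin n))} (hK : IsCpx K) (j : ℕ) : CycBasis hK j := by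
  classical
  obtain ⟨π, hπ⟩ := exists_proj (dS hK j)
  have hfree : Module.Free ℤ (LinearMap.ker (dS hK j)) := inferInstance
  have hfin : Module.Finite ℤ (LinearMap.ker (dS hK j)) := inferInstance
  let B := Module.finBasis ℤ (LinearMap.ker (dS hK j))
  have hB0 : ∀ x : LinearMap.ker (dS hK j), dS hK j x = 0 := fun x => x.2
  have hsum : ∀ z : Simp K (j + 1) → ℤ, ∀ a, ∑ σ, z σ * B.repr (π (Pi.single σ 1)) a =
      B.repr (π z) a := by
    intro z a
    have hy : z = ∑ t, z t • (Pi.single t (1 : ℤ) : Simp K (j + 1) → ℤ) := by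
      funext u
      simp [Finset.sum_apply, Pi.single_apply]
    conv_rhs => rw [hy]
    simp only [map_sum, map_smul, Finsupp.coe_finsetSum, Finset.sum_apply, Finsupp.coe_smul,
      Pi.smul_apply, smul_eq_mul]
  refine ⟨Module.finrank ℤ (LinearMap.ker (dS hK j)), fun a => (B a : Simp K (j + 1) → ℤ),
    fun σ a => B.repr (π (Pi.single σ 1)) a, ?_, ?_, ?_⟩
  · intro a
    rw [isCyc_iff]
    exact (B a).2
  · intro a b
    rw [hsum, hπ, Module.Basis.repr_self, Finsupp.single_apply]
  · intro z hz τ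
    rw [isCyc_iff] at hz
    have h1 : π z = (⟨z, hz⟩ : LinearMap.ker (dS hK j)) := hπ ⟨z, hz⟩
    have h2 := B.sum_repr ⟨z, hz⟩
    have h3 := congrArg (fun w : LinearMap.ker (dS hK j) => (w : Simp K (j + 1) → ℤ) τ) h2
    simp only [AddSubmonoidClass.coe_finsetSum, Finset.sum_apply, SetLike.val_smul,
      Pi.smul_apply, smul_eq_mul] at h3
    rw [← h3]
    apply Finset.sum_congr rfl
    intro a _
    rw [hsum, h1]

end Pool.Agent.Work.MP_d1e9a6_pr.Top
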