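import Mathlib
import Pool.Agent.Work.MP_d1e9a6_pr.Defs
import Pool.Agent.Work.MP_d1e9a6_pr_helper73.Algebra

/-!
Block S: from list chains (`Acyc (FK K) k`) to finset chains (`HV K j`).
-/

noncomputable section

open Finset

namespace Pool.Agent.Work.MP_d1e9a6_pr.Top

variable {n : ℕ}

/-- put a vertex in front of a finset chain -/
def wed (v : Fin n) : (Finset (Fin n) → ℤ) →ₗ[ℤ] (Finset (Fin n) → ℤ) where
  toFun c s := if v ∈ s then (-1) ^ rk v s * c (s.erase v) else 0
  map_add' c c' := by
    funext s
    simp only [Pi.add_apply]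
    split_ifs
    · ring
    · ring
  map_smul' a c := by
    funext s
    simp only [Pi.smul_apply, smul_eq_mul, RingHom.id_apply]
    split_ifs
    · ring
    · ring

theorem wed_apply (v : Fin n) (c : Finset (Fin n) → ℤ) (s : Finset (Fin n)) :
    wed v c s = if v ∈ s then (-1) ^ rk v s * c (s.erase v) else 0 := rfl

/-- the boundary as a linear map -/
def bdL : (Finset (Fin n) → ℤ) →ₗ[ℤ] (Finset (Fin n) → ℤ) where
  toFun c := bd c
  map_add' c c' := by
    funext s
    simp only [bd, Pi.add_apply, mul_add, Finset.sum_add_distrib]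
  map_smul' a c := by
    funext s
    simp only [bd, Pi.smul_apply, smul_eq_mul, RingHom.id_apply, Finset.mul_sum]
    apply Finset.sum_congr rfl
    intro v _
    ring

theorem rk_insert_of_lt {v w : Fin n} {t : Finset (Fin n)} (hw : w ∉ t) (h : w < v) :
    rk v (insert w t) = rk v t + 1 := by
  unfold rk
  rw [Finset.filter_insert, if_pos h, Finset.card_insert_of_notMem]
  simp [hw]

theorem rk_insert_of_gt {v w : Fin n} {t : Finset (Fin n)} (h : v < w) :
    rk v (insert w t) = rk v t := by
  unfold rk
  rw [Finset.filter_insert, if_neg (not_lt.mpr h.le)]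

theorem bd_wed (v : Fin n) (c : Finset (Fin n) → ℤ) : bd (wed v c) = c - wed v (bd c) := by
  funext t
  rw [Pi.sub_apply, wed_apply]
  by_cases hv : v ∈ t
  · rw [if_pos hv]
    have hsplit : Finset.univ.filter (fun w => w ∉ t.erase v) =
        insert v (Finset.univ.filter (fun w => w ∉ t)) := by
      ext w
      simp only [Finset.mem_filter, Finset.mem_univ, true_and, Finset.mem_erase,
        Finset.mem_insert]
      tauto
    have h1 : bd c (t.erase v) = (-1) ^ rk v (t.erase v) * c t +
        ∑ w ∈ Finset.univ.filter (fun w => w ∉ t),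
          (-1) ^ rk w (t.erase v) * c (insert w (t.erase v)) := by
      unfold bd
      rw [hsplit, Finset.sum_insert (by simp [hv]), Finset.insert_erase hv]
    have h2 : ((-1 : ℤ)) ^ rk v t * ((-1) ^ rk v (t.erase v) * c t) = c t := by
      rw [rk_erase, ← mul_assoc, ← pow_add, ← two_mul, pow_mul]
      simp
    rw [h1, mul_add, h2, sub_add_cancel_left, Finset.mul_sum, ← Finset.sum_neg_distrib]
    unfold bd
    apply Finset.sum_congr rfl
    intro w hw
    simp only [Finset.mem_filter, Finset.mem_univ, true_and] at hw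
    rw [wed_apply, if_pos (Finset.mem_insert_of_mem hv)]
    have hne : w ≠ v := fun h => hw (h ▸ hv)
    rw [Finset.erase_insert_of_ne hne]
    have hw' : w ∉ t.erase v := fun h => hw (Finset.mem_of_mem_erase h)
    rcases lt_or_gt_of_ne hne with hlt | hlt
    · rw [rk_insert_of_lt hw hlt]
      have : rk w (t.erase v) = rk w t := by
        have h3 := rk_insert_of_gt (t := t.erase v) hlt
        rw [Finset.insert_erase hv] at h3
        exact h3.symm
      rw [this, pow_succ]
      ring
    · rw [rk_insert_of_gt hlt]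
      have : rk w t = rk w (t.erase v) + 1 := by
        have h3 := rk_insert_of_lt (t := t.erase v) (Finset.notMem_erase v t) hlt
        rw [Finset.insert_erase hv] at h3
        exact h3
      rw [this, pow_succ]
      ring
  · rw [if_neg hv, sub_zero]
    unfold bd
    rw [Finset.sum_eq_single v]
    · rw [wed_apply, if_pos (Finset.mem_insert_self v t), Finset.erase_insert hv,
        rk_insert_self, ← mul_assoc, ← pow_add, ← two_mul, pow_mul]
      simp
    · intro w hw hne
      simp only [Finset.mem_filter, Finset.mem_univ, true_and] at hw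
      rw [wed_apply, if_neg, mul_zero]
      rw [Finset.mem_insert, not_or]
      exact ⟨hne.symm, hv⟩
    · intro h
      exact absurd (by simp [hv]) h

/-- the finset chain of a list -/
def sl : List (Fin n) → (Finset (Fin n) → ℤ)
  | [] => fun s => if s = ∅ then 1 else 0
  | v :: l => wed v (sl l)

theorem sl_cons (v : Fin n) (l : List (Fin n)) : sl (v :: l) = wed v (sl l) := rfl

/-- the finset chain of a list chain -/
def SL : Ch (Fin n) →ₗ[ℤ] (Finset (Fin n) → ℤ) := Finsupp.linearCombination ℤ sl

theorem SL_single (l : List (Fin n)) (a : ℤ) : SL (Finsupp.single l a) = a • sl l := by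
  simp [SL, Finsupp.linearCombination_single]

theorem SL_cone (v : Fin n) (z : Ch (Fin n)) : SL (cone v z) = wed v (SL z) := by
  induction z using Finsupp.induction_linear with
  | zero => simp
  | add f g hf hg => rw [map_add, map_add, map_add, map_add, hf, hg]
  | single l c => rw [cone_single, SL_single, SL_single, map_smul, sl_cons]

theorem SL_bd (l : List (Fin n)) : SL (MP_d1e9a6_pr.bd l) = bd (sl l) := by
  induction l with
  | nil =>
    rw [bd_nil, map_zero]
    funext t
    unfold bd sl
    simp only [Pi.zero_apply]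
    symm
    apply Finset.sum_eq_zero
    intro v _
    rw [if_neg (Finset.insert_ne_empty v t), mul_zero]
  | cons v l ih =>
    rw [bd_cons, map_sub, SL_single, one_smul, SL_cone, ih, sl_cons, bd_wed]

theorem SL_D (z : Ch (Fin n)) : SL (D z) = bd (SL z) := by
  induction z using Finsupp.induction_linear with
  | zero =>
    rw [map_zero, map_zero]
    exact (map_zero (bdL (n := n))).symm
  | add f g hf hg =>
    rw [map_add, map_add, map_add, hf, hg]
    exact (map_add (bdL (n := n)) _ _).symm
  | single l c =>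
    rw [D_single, map_smul, SL_bd, SL_single]
    exact (map_smul (bdL (n := n)) _ _).symm

theorem sl_supp (l : List (Fin n)) (s : Finset (Fin n)) (h : sl l s ≠ 0) :
    s = l.toFinset ∧ s.card = l.length := by
  induction l generalizing s with
  | nil =>
    unfold sl at h
    have : s = ∅ := by
      by_contra h0
      exact h (if_neg h0)
    subst this
    simp
  | cons v l ih =>
    rw [sl_cons, wed_apply] at h
    by_cases hv : v ∈ s
    · rw [if_pos hv] at h
      have h1 : sl l (s.erase v) ≠ 0 := fun h0 => h (by rw [h0, mul_zero])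
      obtain ⟨h2, h3⟩ := ih _ h1
      refine ⟨?_, ?_⟩
      · rw [List.toFinset_cons, ← h2, Finset.insert_erase hv]
      · rw [Finset.card_erase_of_mem hv] at h3
        have := Finset.card_pos.mpr ⟨v, hv⟩
        simp only [List.length_cons]
        omega
    · rw [if_neg hv] at h
      exact absurd rfl h

theorem SL_apply (z : Ch (Fin n)) (s : Finset (Fin n)) :
    SL z s = z.sum (fun l a => a * sl l s) := by
  unfold SL
  rw [Finsupp.linearCombination_apply, Finsupp.sum, Finsupp.sum, Finset.sum_apply]
  rfl

theorem SL_supp {F : List (Fin n) → Prop} {m : ℕ} {z : Ch (Fin n)} (hz : z ∈ CF F m)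
    (s : Finset (Fin n)) (h : SL z s ≠ 0) :
    ∃ l, F l ∧ s = l.toFinset ∧ s.card = m := by
  rw [SL_apply, Finsupp.sum] at h
  obtain ⟨l, hl, hne⟩ := Finset.exists_ne_zero_of_sum_ne_zero h
  obtain ⟨h1, h2⟩ := mem_CF.mp hz l hl
  have h3 : sl l s ≠ 0 := fun h0 => hne (by rw [h0, mul_zero])
  obtain ⟨h4, h5⟩ := sl_supp l s h3
  exact ⟨l, h1, h4, by rw [h5, h2]⟩

/-- strictly increasing lists have class one -/
theorem sl_sorted (l : List (Fin n)) (hl : l.Pairwise (· < ·)) : sl l l.toFinset = 1 := by
  induction l with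
  | nil => simp [sl]
  | cons v l ih =>
    rw [List.pairwise_cons] at hl
    have hv : v ∉ l.toFinset := by
      intro h
      rw [List.mem_toFinset] at h
      exact lt_irrefl _ (hl.1 v h)
    rw [sl_cons, wed_apply, if_pos (by simp), List.toFinset_cons, Finset.erase_insert hv,
      ih hl.2]
    have : rk v (insert v l.toFinset) = 0 := by
      unfold rk
      rw [Finset.card_eq_zero, Finset.filter_eq_empty_iff]
      intro u hu
      rcases Finset.mem_insert.mp hu with h | h
      · rw [h]; exact lt_irrefl _
      · rw [List.mem_toFinset] at h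
        exact not_lt.mpr (hl.1 u h).le
    rw [this]
    simp

theorem sorted_inj {l l' : List (Fin n)} (hl : l.Pairwise (· < ·)) (hl' : l'.Pairwise (· < ·))
    (h : l.toFinset = l'.toFinset) : l = l' := by
  have hp : l.Perm l' := by
    rw [List.perm_ext_iff_of_nodup (hl.imp (fun h => ne_of_lt h)) (hl'.imp (fun h => ne_of_lt h))]
    intro a
    rw [← List.mem_toFinset, ← List.mem_toFinset, h]
  exact hp.eq_of_pairwise (fun a b _ _ h1 h2 => absurd h1 (not_lt.mpr h2.le)) hl hl'

/-- a chain of strictly increasing lists is determined by its finset chain -/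
theorem SL_inj {z : Ch (Fin n)} (hz : ∀ l ∈ z.support, l.Pairwise (· < ·)) (h : SL z = 0) :
    z = 0 := by
  ext l
  rw [Finsupp.zero_apply]
  by_contra hne
  have hl : l ∈ z.support := Finsupp.mem_support_iff.mpr hne
  have h1 := congrFun h l.toFinset
  rw [SL_apply, Finsupp.sum, Finset.sum_eq_single l, sl_sorted l (hz l hl), mul_one] at h1
  · exact hne h1
  · intro l' hl' hne'
    have : sl l' l.toFinset = 0 := by
      by_contra h0
      obtain ⟨h2, _⟩ := sl_supp l' _ h0
      exact hne' (sorted_inj (hz l' hl') (hz l hl) h2.symm)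
    rw [this, mul_zero]
  · intro h2
    exact absurd hl h2

/-- the list chain of a finset chain -/
def LL (c : Finset (Fin n) → ℤ) : Ch (Fin n) :=
  ∑ s : Finset (Fin n), Finsupp.single (s.sort (· ≤ ·)) (c s)

theorem LL_support (c : Finset (Fin n) → ℤ) (l : List (Fin n)) (hl : l ∈ (LL c).support) :
    ∃ s, c s ≠ 0 ∧ l = s.sort (· ≤ ·) := by
  classical
  unfold LL at hl
  have h1 := Finsupp.support_finsetSum hl
  rw [Finset.mem_biUnion] at h1
  obtain ⟨s, _, hs⟩ := h1
  have h2 := Finsupp.support_single_subset hs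
  rw [Finset.mem_singleton] at h2
  refine ⟨s, ?_, h2⟩
  intro h0
  rw [h0, Finsupp.single_zero] at hs
  simp at hs

theorem sort_pairwise (s : Finset (Fin n)) : (s.sort (· ≤ ·)).Pairwise (· < ·) :=
  Finset.sortedLT_sort s |>.pairwise

theorem SL_LL (c : Finset (Fin n) → ℤ) : SL (LL c) = c := by
  unfold LL
  rw [map_sum]
  funext t
  rw [Finset.sum_apply, Finset.sum_eq_single t]
  · rw [SL_single, Pi.smul_apply, smul_eq_mul]
    have := sl_sorted _ (sort_pairwise t)
    rw [Finset.sort_toFinset] at this
    rw [this, mul_one]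
  · intro s _ hne
    rw [SL_single, Pi.smul_apply, smul_eq_mul]
    have : sl (s.sort (· ≤ ·)) t = 0 := by
      by_contra h0
      obtain ⟨h2, _⟩ := sl_supp _ _ h0
      rw [Finset.sort_toFinset] at h2
      exact hne h2.symm
    rw [this, mul_zero]
  · simp

theorem D_LL (c : Finset (Fin n) → ℤ) (hc : bd c = 0) : D (LL c) = 0 := by
  classical
  apply SL_inj
  · intro l hl
    rw [D, Finsupp.linearCombination_apply, Finsupp.sum] at hl
    have h1 := Finsupp.support_finsetSum hl
    rw [Finset.mem_biUnion] at h1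
    obtain ⟨l', hl', h2⟩ := h1
    have h3 := Finsupp.support_smul h2
    obtain ⟨h4, _⟩ := bd_support l' l h3
    obtain ⟨s, _, rfl⟩ := LL_support c l' hl'
    exact (sort_pairwise s).sublist h4
  · rw [SL_D, SL_LL, hc]

/-- **Block S.** Acyclicity of the list chains gives vanishing homology of the finset chains. -/
theorem HV_of_Acyc {K : Set (Finset (Fin n))} {k : ℕ}
    (h : Acyc (FK K) k) {j : ℕ} (hj : j + 1 ≤ k) : HV {s | s ∈ K ∧ s.Nonempty} j := by
  intro c hc hcyc
  have h1 : LL c ∈ Zc (FK K) (j + 1) := by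
    rw [mem_Zc]
    refine ⟨?_, D_LL c (funext hcyc)⟩
    rw [mem_CF]
    intro l hl
    obtain ⟨s, hs, rfl⟩ := LL_support c l hl
    obtain ⟨h2, h3⟩ := hc s hs
    refine ⟨?_, ?_⟩
    · unfold FK
      rw [Finset.sort_toFinset]
      exact h2.1
    · rw [Finset.length_sort, h3]
  obtain ⟨y, hy, hyD⟩ := mem_Bd.mp (h (j + 1) hj h1)
  refine ⟨SL y, ?_, ?_⟩
  · intro s hs
    obtain ⟨l, hl, h2, h3⟩ := SL_supp hy s hs
    refine ⟨⟨?_, ?_⟩, h3⟩
    · rw [h2]; exact hl
    · rw [← Finset.card_pos, h3]; omega
  · intro t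
    have := congrFun (SL_D y) t
    rw [hyD, SL_LL] at this
    exact this.symm

/-- the nonempty faces of a lower set form a complex -/
theorem isCpx_of_lower {K : Set (Finset (Fin n))} (hK : IsLowerSet K) :
    IsCpx {s | s ∈ K ∧ s.Nonempty} where
  ne := fun _ hs => hs.2
  down := fun _ hs _ ht hne => ⟨hK ht hs.1, hne⟩

/-- **P2 + S.** All cohomology hypotheses of the topology block from acyclicity of the list
chains up to list length `m + 3`. -/
theorem coh_of_Acyc {K : Set (Finset (Fin n))} (hK : IsLowerSet K) {m : ℕ}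
    (h : Acyc (FK K) (m + 3)) :
    (∀ j, 1 ≤ j → j ≤ m + 1 → Coh (isCpx_of_lower hK) j) ∧
      CohTop (isCpx_of_lower hK) (m + 2) ∧ CycBasis (isCpx_of_lower hK) (m + 2) := by
  refine ⟨?_, ?_, cycBasis _ _⟩
  · intro j h1 h2
    obtain ⟨i, rfl⟩ : ∃ i, j = i + 1 := ⟨j - 1, by omega⟩
    exact coh_of_HV _ (HV_of_Acyc h (by omega)) (HV_of_Acyc h (by omega))
  · exact cohTop_of_HV _ (HV_of_Acyc h (by omega))

end Pool.Agent.Work.MP_d1e9a6_pr.Top
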